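import Pool.Agent.H13.IsoD

namespace Pool.Agent.Results.MP_8474a0_co.Realizer
open Pool.Agent.H13.Iso

theorem result (V : Type) [Fintype V] (Γ : SimpleGraph V) (n : ℕ) (hn : 2 ≤ n)
    (hV : n + 1 ≤ Fintype.card V) (ht : ∀ u v : V, ∃ g : Γ ≃g Γ, g u = v)
    (hgap : 2 * ((n : ℝ) + 1) * hIso Γ n < hIso Γ (n + 1)) :
    ∃ c : V → Fin n, Function.Surjective c ∧ width Γ c = hIso Γ n ∧ Imprim Γ c := by
  classical
  apply graph_main Γ n (by omega) hV ht
  have h1 := hIso_nonneg Γ n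
  have h2 : (2:ℝ) ≤ n := by exact_mod_cast hn
  nlinarith

end Pool.Agent.Results.MP_8474a0_co.Realizer
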